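import Pool.Agent.T2h77U.Asm
import Pool.Agent.T2h77U.Clo
import Pool.Agent.T2h77U.Mom
import Pool.Agent.T2h77U.Po2

/-!
# The degree conjecture for topological subalgebra zeta functions fails

Let `A` be the `ℤ`-algebra of rank `10` with basis `e₀, ..., e₉` and the products

`e₀ eⱼ = e_k`, `e₁ eⱼ = -(k - 2) e_k` for `{j, k} = {2a, 2a + 1}`, `a = 1, 2, 3, 4`,

all other products of basis elements being zero (`c10`). In words: `A = E ⊕ M₀ ⊕ M₁ ⊕ M₂ ⊕ M₃`, all of rank two,
`(x, y) ∈ E` maps `(m₁, m₂) ∈ M_i` to `((x - 2 i y) m₂, (x - (2 i + 1) y) m₁)`, and all other products vanish.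

We show that the topological subalgebra zeta function of `A` (literally as in the definition of
du Sautoy-Loeser and Rossmann by `ℓ`-adic limits over the unramified extensions; `IsTopZeta`) is either zero or a
rational function of degree smaller than `-10`, so the conjecture that the degree is `-d` is false.

The proof: 1. for large `p` the numbers `a_n(q)` of subalgebras of index `q ^ n` over the unramified extension of
degree `f` of `ℤ_p`, `q = p ^ f`, satisfy `∏ (1 - q^α X^β) ∑ a_n(q) X^n ∈ ℚ[X]` with finitely many `(α, β)` and a
degree independent of `f` (`S_UR`; proved for all algebras by an elementary cell decomposition with respect to leading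
terms, which is uniform in `f`). 2. The torus localization `a_n(q) ≡` number of graded subalgebras modulo `q - 1`,
and the `L`-functions of hyperelliptic curves branched over the eight points `0, ..., 7`, give the `ℓ`-adic limits
`χ_n` of `a_n(p ^ f)` as `f → 0`. 3. `∑ χ_n X^n` has a pole of order smaller than `10` at `X = 1`. 4. A moment argument
shows that this forces the degree of the topological zeta function to be smaller than `-10`.
-/

set_option autoImplicit false

namespace Pool.Agent.Results.MP_34a9b4_al.DegreeConjectureFails

open Polynomial

theorem result (N D : ℚ[X])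
    (h : Pool.Agent.H260TZ.IsTopZeta Pool.Agent.T2h77U.c10 N D) :
    N = 0 ∨ N.natDegree + 10 < D.natDegree :=
  Pool.Agent.T2h77U.main Pool.Agent.T2h77U.clo Pool.Agent.T2h77U.mom Pool.Agent.T2h77U.po2 N D h

end Pool.Agent.Results.MP_34a9b4_al.DegreeConjectureFails
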